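import Pool.Agent.H365.TF.Stm2

/-!
OM2: idempotent matrices over `k[L ⋊ G]` with zero image over `k[G]` are zero.
-/

set_option autoImplicit false

namespace Pool.Agent.H365.TF

open Pool.Agent.H365 (WreathProduct DirectPower)

noncomputable section

namespace OM2

variable {k L G : Type} [CommRing k] [CommGroup L] [Group G] (φ : G →* MulAut L)

/-- the embedding of the coefficient ring -/
def io : MonoidAlgebra k L →+* MonoidAlgebra k (L ⋊[φ] G) :=
  MonoidAlgebra.mapDomainRingHom k (SemidirectProduct.inl : L →* L ⋊[φ] G)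

theorem io_single (l : L) (r : k) : io φ (MonoidAlgebra.single l r) =
    MonoidAlgebra.single (SemidirectProduct.inl l) r := by
  simp [io]

/-- the elements with coefficients in the power of the augmentation ideal -/
def II (k : Type) [CommRing k] (m : ℕ) : AddSubmonoid (MonoidAlgebra k (L ⋊[φ] G)) :=
  AddSubmonoid.closure {z | ∃ a ∈ aug k L ^ m, ∃ w : L ⋊[φ] G,
    z = io φ a * MonoidAlgebra.single w 1}

/-- the action on the coefficient ring -/
def ac (γ : G) : MonoidAlgebra k L →+* MonoidAlgebra k L :=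
  MonoidAlgebra.mapDomainRingHom k (φ γ).toMonoidHom

theorem ac_single (γ : G) (l : L) (r : k) : ac φ γ (MonoidAlgebra.single l r) =
    MonoidAlgebra.single (φ γ l) r := by
  simp [ac]

theorem ac_aug (γ : G) (m : ℕ) {a : MonoidAlgebra k L} (ha : a ∈ aug k L ^ m) :
    ac φ γ a ∈ aug k L ^ m := by
  have h1 : Ideal.map (ac φ γ) (aug k L) ≤ aug k L := by
    rw [Ideal.map_le_iff_le_comap]
    conv_lhs => rw [aug]
    rw [Ideal.span_le]
    rintro _ ⟨l, rfl⟩
    rw [SetLike.mem_coe, Ideal.mem_comap, map_sub, map_one, ac_single]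
    exact Ideal.subset_span ⟨φ γ l, rfl⟩
  have h2 : Ideal.map (ac φ γ) (aug k L ^ m) ≤ aug k L ^ m := by
    rw [Ideal.map_pow]
    exact Ideal.pow_right_mono h1 m
  exact h2 (Ideal.mem_map_of_mem _ ha)

theorem comm (w : L ⋊[φ] G) (b : MonoidAlgebra k L) :
    MonoidAlgebra.single w 1 * io φ b =
      io φ (ac φ w.right b) * MonoidAlgebra.single w 1 := by
  induction b using MonoidAlgebra.induction_linear with
  | zero => simp
  | add f g hf hg => rw [map_add, mul_add, hf, hg, map_add, map_add, add_mul]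
  | single l r =>
    rw [ac_single, io_single, io_single, MonoidAlgebra.single_mul_single,
      MonoidAlgebra.single_mul_single, one_mul, mul_one]
    congr 1
    apply SemidirectProduct.ext
    · simp [mul_comm]
    · simp

theorem mul_mem {m n : ℕ} {x y : MonoidAlgebra k (L ⋊[φ] G)} (hx : x ∈ II φ k m)
    (hy : y ∈ II φ k n) : x * y ∈ II φ k (m + n) := by
  induction hx using AddSubmonoid.closure_induction with
  | mem x hx =>
    obtain ⟨a, ha, w, rfl⟩ := hx
    induction hy using AddSubmonoid.closure_induction with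
    | mem y hy =>
      obtain ⟨b, hb, w', rfl⟩ := hy
      apply AddSubmonoid.subset_closure
      refine ⟨a * ac φ w.right b, ?_, w * w', ?_⟩
      · rw [pow_add]
        exact Ideal.mul_mem_mul ha (ac_aug φ _ _ hb)
      · rw [mul_assoc, ← mul_assoc (MonoidAlgebra.single w 1), comm, map_mul, mul_assoc, mul_assoc,
          MonoidAlgebra.single_mul_single, one_mul]
    | zero =>
      rw [mul_zero]
      exact zero_mem _
    | add y y' _ _ h h' =>
      rw [mul_add]
      exact add_mem h h'
  | zero =>
    rw [zero_mul]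
    exact zero_mem _
  | add x x' _ _ h h' =>
    rw [add_mul]
    exact add_mem h h'

theorem ker_mem {y : MonoidAlgebra k (L ⋊[φ] G)}
    (hy : MonoidAlgebra.mapDomainRingHom k
      (SemidirectProduct.rightHom : L ⋊[φ] G →* G) y = 0) : y ∈ II φ k 1 := by
  have h : ∀ y : MonoidAlgebra k (L ⋊[φ] G), y - MonoidAlgebra.mapDomainRingHom k
      (SemidirectProduct.inr : G →* L ⋊[φ] G) (MonoidAlgebra.mapDomainRingHom k
      (SemidirectProduct.rightHom : L ⋊[φ] G →* G) y) ∈ II φ k 1 := by
    intro y
    induction y using MonoidAlgebra.induction_linear with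
    | zero =>
      rw [map_zero, map_zero, sub_zero]
      exact zero_mem _
    | add f g hf hg =>
      rw [map_add, map_add, add_sub_add_comm]
      exact add_mem hf hg
    | single w r =>
      apply AddSubmonoid.subset_closure
      refine ⟨MonoidAlgebra.single 1 r * (MonoidAlgebra.single w.left 1 - 1), ?_,
        SemidirectProduct.inr w.right, ?_⟩
      · rw [pow_one]
        exact Ideal.mul_mem_left _ _ (Ideal.subset_span ⟨w.left, rfl⟩)
      · rw [mul_sub, mul_one, MonoidAlgebra.single_mul_single, one_mul, mul_one, map_sub,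
          io_single, io_single, sub_mul, MonoidAlgebra.single_mul_single,
          MonoidAlgebra.single_mul_single, mul_one, map_one, one_mul,
          SemidirectProduct.inl_left_mul_inr_right]
        simp
  have h1 := h y
  rwa [hy, map_zero, sub_zero] at h1

theorem hinj (γ : G) : Function.Injective (fun l => (⟨l, γ⟩ : L ⋊[φ] G)) :=
  fun _ _ h => congrArg SemidirectProduct.left h

/-- the coefficient of an element of `G` -/
def cf (γ : G) : MonoidAlgebra k (L ⋊[φ] G) →+ MonoidAlgebra k L :=
  MonoidAlgebra.comapDomainAddMonoidHom (fun l => (⟨l, γ⟩ : L ⋊[φ] G)) (hinj φ γ)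

theorem cf_io (γ : G) (w : L ⋊[φ] G) (a : MonoidAlgebra k L) :
    (w.right = γ → cf φ γ (io φ a * MonoidAlgebra.single w 1) =
      a * MonoidAlgebra.single w.left 1) ∧
    (w.right ≠ γ → cf φ γ (io φ a * MonoidAlgebra.single w 1) = 0) := by
  induction a using MonoidAlgebra.induction_linear with
  | zero => simp
  | add f g hf hg =>
    constructor
    · intro h
      rw [map_add, add_mul, map_add, hf.1 h, hg.1 h, add_mul]
    · intro h
      rw [map_add, add_mul, map_add, hf.2 h, hg.2 h, add_zero]
  | single l r =>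
    rw [io_single, MonoidAlgebra.single_mul_single, MonoidAlgebra.single_mul_single]
    constructor
    · intro h
      have e : (SemidirectProduct.inl l * w : L ⋊[φ] G) = ⟨l * w.left, γ⟩ := by
        apply SemidirectProduct.ext
        · simp
        · simp [h]
      rw [e]
      exact MonoidAlgebra.comapDomain_single_map (fun l => (⟨l, γ⟩ : L ⋊[φ] G)) (hinj φ γ) _ _
    · intro h
      refine MonoidAlgebra.comapDomain_single_of_not_mem_range ?_ (hinj φ γ)
      rintro ⟨l', hl'⟩
      apply h
      have := congrArg SemidirectProduct.right hl'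
      simpa using this.symm

theorem cf_mem (γ : G) {m : ℕ} {y : MonoidAlgebra k (L ⋊[φ] G)} (hy : y ∈ II φ k m) :
    cf φ γ y ∈ aug k L ^ m := by
  induction hy using AddSubmonoid.closure_induction with
  | mem y hy =>
    obtain ⟨a, ha, w, rfl⟩ := hy
    by_cases h : w.right = γ
    · rw [(cf_io φ γ w a).1 h]
      exact Ideal.mul_mem_right _ _ ha
    · rw [(cf_io φ γ w a).2 h]
      exact zero_mem _
  | zero =>
    rw [map_zero]
    exact zero_mem _
  | add y y' _ _ h h' =>
    rw [map_add]
    exact add_mem h h'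

theorem eq_zero {y : MonoidAlgebra k (L ⋊[φ] G)} (hy : ∀ γ, cf φ γ y = 0) : y = 0 := by
  apply MonoidAlgebra.ext
  apply Finsupp.ext
  rintro ⟨l, γ⟩
  have h : (cf φ γ y).coeff l = (0 : MonoidAlgebra k L).coeff l := by rw [hy γ]
  exact h

theorem main (h0 : ∀ y : MonoidAlgebra k L, (∀ m : ℕ, y ∈ aug k L ^ m) → y = 0) (ι : Type)
    [Fintype ι] (p : Matrix ι ι (MonoidAlgebra k (L ⋊[φ] G))) (hp : p * p = p)
    (hp0 : p.map (MonoidAlgebra.mapDomainRingHom k
      (SemidirectProduct.rightHom : L ⋊[φ] G →* G)) = 0) : p = 0 := by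
  have hb : ∀ i j, p i j ∈ II φ k 1 := fun i j => ker_mem φ (congrFun (congrFun hp0 i) j)
  have h1 : ∀ m : ℕ, ∀ i j, p i j ∈ II φ k (m + 1) := by
    intro m
    induction m with
    | zero => exact hb
    | succ m ih =>
      intro i j
      have h2 : p i j = ∑ l, p i l * p l j := by
        rw [← Matrix.mul_apply, hp]
      rw [h2]
      exact sum_mem fun l _ => mul_mem φ (ih i l) (hb l j)
  ext1 i j
  apply eq_zero φ
  intro γ
  apply h0
  intro m
  exact Ideal.pow_le_pow_right (Nat.le_succ m) (cf_mem φ γ (h1 m i j))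

/-- the lamp group is residually a finite `ℓ`-group -/
theorem lamp (ℓ : ℕ) [Fact ℓ.Prime] (X : Type) (S : Finset (DirectPower X (Multiplicative ℤ))) :
    ∃ (Q : Type) (_ : CommGroup Q) (_ : Finite Q) (φ : DirectPower X (Multiplicative ℤ) →* Q),
      IsPGroup ℓ Q ∧ Set.InjOn φ (S : Set (DirectPower X (Multiplicative ℤ))) := by
  classical
  have hl : 1 < ℓ := (Fact.out : ℓ.Prime).one_lt
  rcases isEmpty_or_nonempty X with hX | hX
  · refine ⟨PUnit, inferInstance, inferInstance, 1, ?_, ?_⟩
    · intro g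
      exact ⟨0, rfl⟩
    · intro s _ t _ _
      exact Subtype.ext (funext fun x => isEmptyElim x)
  -- separation of two elements
  have hsep : ∀ q : DirectPower X (Multiplicative ℤ) × DirectPower X (Multiplicative ℤ),
      q.1 ≠ q.2 → ∃ (x : X) (j : ℕ), ∀ J, j ≤ J →
        ((Multiplicative.toAdd (q.1.1 x) : ℤ) : ZMod (ℓ ^ J)) ≠
          ((Multiplicative.toAdd (q.2.1 x) : ℤ) : ZMod (ℓ ^ J)) := by
    rintro ⟨s, t⟩ hst
    have hx : ∃ x, s.1 x ≠ t.1 x := by
      by_contra hcon
      push Not at hcon
      exact hst (Subtype.ext (funext hcon))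
    obtain ⟨x, hx⟩ := hx
    set a : ℤ := Multiplicative.toAdd (s.1 x) with ha
    set b : ℤ := Multiplicative.toAdd (t.1 x) with hb
    have hab : a - b ≠ 0 := by
      intro h
      apply hx
      have : a = b := sub_eq_zero.1 h
      exact Multiplicative.toAdd.injective this
    refine ⟨x, (a - b).natAbs, ?_⟩
    intro J hJ h
    have h1 : ((ℓ ^ J : ℕ) : ℤ) ∣ a - b := by
      have h2 : (((a - b : ℤ)) : ZMod (ℓ ^ J)) = 0 := by
        rw [Int.cast_sub, sub_eq_zero]
        exact h
      exact (ZMod.intCast_zmod_eq_zero_iff_dvd _ _).1 h2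
    have h3 : ℓ ^ J ∣ (a - b).natAbs := by
      have := Int.natAbs_dvd_natAbs.2 h1
      simpa using this
    have h4 := Nat.le_of_dvd (Int.natAbs_pos.2 hab) h3
    have h5 : J < ℓ ^ J := Nat.lt_pow_self hl
    omega
  choose! xx jj hxj using hsep
  set J : ℕ := (S ×ˢ S).sup jj with hJ
  have : NeZero (ℓ ^ J) := ⟨pow_ne_zero _ (by omega)⟩
  refine ⟨((S ×ˢ S : Finset _) → Multiplicative (ZMod (ℓ ^ J))), inferInstance, ?_, ?_, ?_, ?_⟩
  · exact Pi.finite
  · exact {
      toFun := fun f q => Multiplicative.ofAdd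
        ((Multiplicative.toAdd (f.1 (xx q.1)) : ℤ) : ZMod (ℓ ^ J))
      map_one' := by
        funext q
        simp
      map_mul' := by
        intro f g
        funext q
        simp }
  · intro g
    refine ⟨J, ?_⟩
    funext q
    rw [Pi.pow_apply, Pi.one_apply]
    apply Multiplicative.toAdd.injective
    rw [toAdd_pow, toAdd_one, nsmul_eq_mul]
    simp
  · intro s hs t ht hst
    by_contra hne
    have hmem : (s, t) ∈ S ×ˢ S := Finset.mem_product.2 ⟨hs, ht⟩
    have h1 := congrFun hst ⟨(s, t), hmem⟩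
    have h2 := hxj (s, t) hne J (Finset.le_sup (f := jj) hmem)
    exact h2 (Multiplicative.ofAdd.injective h1)

end OM2

theorem t_OM2 : S_OM1 → S_OM2 := by
  intro h ℓ _ G X _ _ ι _ _ p hp hp0
  exact OM2.main _ (fun y hy => h ℓ (DirectPower X (Multiplicative ℤ)) (OM2.lamp ℓ X) y hy) ι p
    hp hp0

end

end Pool.Agent.H365.TF
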